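import Mathlib

/-!
On a set of cardinality below aleph omega there is a countable-valued map `F` on finite
subsets such that the `F`-closed sets satisfy the descending chain condition.
-/

namespace Pool.Agent.MP_e848aa_gt.FreeSet

open Set Cardinal

universe v

/-- `M` is closed under `F`. -/
def FClosed {I : Type v} (F : Finset I → Set I) (M : Set I) : Prop :=
  ∀ A : Finset I, (A : Set I) ⊆ M → F A ⊆ M

/-- Some countable-valued `F` has the descending chain condition for closed sets. -/
def HasDCC (I : Type v) : Prop :=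
  ∃ F : Finset I → Set I, (∀ A, (F A).Countable) ∧
    ∀ M : ℕ → Set I, (∀ n, FClosed F (M n)) → Antitone M → ∃ n, ∀ m, n ≤ m → M m = M n

theorem hasDCC_of_countable (I : Type v) (h : #I ≤ ℵ₀) : HasDCC I := by
  have hc : Countable I := Cardinal.mk_le_aleph0_iff.1 h
  refine ⟨fun _ => Set.univ, fun _ => Set.countable_univ, fun M hM _ => ⟨0, fun m _ => ?_⟩⟩
  have h1 : ∀ n, M n = Set.univ := fun n =>
    Set.univ_subset_iff.1 (hM n ∅ (by simp))
  rw [h1, h1]

/-- Antitone sequences of sets each of which is an initial segment of the first one. -/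
theorem eventually_const {I : Type v} (r : I → I → Prop) [hr : IsWellOrder I r]
    (M : ℕ → Set I) (hM : Antitone M)
    (hinit : ∀ n, ∀ α ∈ M n, ∀ β ∈ M 0, r β α → β ∈ M n) :
    ∃ n, ∀ m, n ≤ m → M m = M n := by
  classical
  by_cases hS : (⋃ n, M 0 \ M n).Nonempty
  · have hwf : WellFounded r := hr.wf
    set μ := hwf.min (⋃ n, M 0 \ M n) hS with hμ
    have hμmem : μ ∈ ⋃ n, M 0 \ M n := hwf.min_mem _ hS
    have hμmin : ∀ x ∈ ⋃ n, M 0 \ M n, ¬ r x μ := fun x hx => hwf.not_lt_min _ hx
    obtain ⟨n, hn0, hn⟩ := Set.mem_iUnion.1 hμmem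
    have key : ∀ m, n ≤ m → M m = {x ∈ M 0 | r x μ} := by
      intro m hm
      ext x
      constructor
      · intro hx
        have hx0 : x ∈ M 0 := hM (Nat.zero_le m) hx
        refine ⟨hx0, ?_⟩
        rcases trichotomous_of r x μ with h | h | h
        · exact h
        · exact absurd (hM hm (h ▸ hx)) hn
        · exact absurd (hM hm (hinit m x hx μ hn0 h)) hn
      · rintro ⟨hx0, hxμ⟩
        by_contra hx
        exact hμmin x (Set.mem_iUnion.2 ⟨m, hx0, hx⟩) hxμ
    exact ⟨n, fun m hm => by rw [key m hm, key n le_rfl]⟩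
  · rw [Set.not_nonempty_iff_eq_empty] at hS
    have key : ∀ m, M m = M 0 := by
      intro m
      refine Set.Subset.antisymm (hM (Nat.zero_le m)) fun x hx => ?_
      by_contra h
      have : x ∈ ⋃ n, M 0 \ M n := Set.mem_iUnion.2 ⟨m, hx, h⟩
      rw [hS] at this
      exact this
    exact ⟨0, fun m _ => key m⟩

theorem hasDCC_step (κ : Cardinal.{v}) (hκ : ∀ J : Type v, #J ≤ κ → HasDCC J)
    (I : Type v) (hI : #I ≤ Order.succ κ) : HasDCC I := by
  classical
  by_cases hle : #I ≤ κ
  · exact hκ I hle
  have hIeq : #I = Order.succ κ := le_antisymm hI (Order.succ_le_of_lt (not_le.1 hle))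
  obtain ⟨r, hr, hord⟩ := Cardinal.exists_ord_eq I
  obtain ⟨J, hJ⟩ := (Cardinal.le_mk_iff_exists_set (c := κ) (α := I)).1 (not_le.1 hle).le
  obtain ⟨FJ, hFJc, hFJ⟩ := hκ J hJ.le
  have hseg : ∀ α : I, Nonempty ({β // r β α} ↪ J) := by
    intro α
    have h1 : #{β // r β α} < #I := Cardinal.card_typein_lt (r := r) α hord
    rw [← Cardinal.le_def, hJ]
    rw [hIeq] at h1
    exact Order.lt_succ_iff.1 h1
  have e : ∀ α : I, {β // r β α} ↪ J := fun α => Classical.choice (hseg α)
  let F : Finset I → Set I := fun A =>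
    (Subtype.val '' FJ (A.subtype (· ∈ J))) ∪
      ((⋃ α ∈ A, ⋃ β ∈ A, ⋃ h : r β α, {((e α ⟨β, h⟩ : J) : I)}) ∪
        (⋃ α ∈ A, Subtype.val '' ((fun x : {β // r β α} => ((e α x : J) : I)) ⁻¹' (A : Set I))))
  refine ⟨F, fun A => ?_, fun M hM hanti => ?_⟩
  · refine ((hFJc _).image _).union (Set.Countable.union ?_ ?_)
    · refine Set.Countable.biUnion A.countable_toSet fun α _ =>
        Set.Countable.biUnion A.countable_toSet fun β _ =>
          Set.countable_iUnion fun h => Set.countable_singleton _
    · refine Set.Countable.biUnion A.countable_toSet fun α _ => Set.Countable.image ?_ _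
      refine Set.Countable.preimage A.countable_toSet ?_
      exact Subtype.val_injective.comp (e α).injective
  · -- the trace on `J`
    obtain ⟨n₀, hn₀⟩ := hFJ (fun n => {j : J | (j : I) ∈ M n}) (by
        intro n B hB j hj
        refine hM n (B.map (Function.Embedding.subtype _)) ?_ (Or.inl ⟨j, ?_, rfl⟩)
        · intro b hb
          simp only [Finset.coe_map, Function.Embedding.subtype_apply, Set.mem_image,
            Finset.mem_coe] at hb
          obtain ⟨b', hb', rfl⟩ := hb
          exact hB hb'
        · have hB' : Finset.subtype (fun x => x ∈ J)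
              (Finset.map (Function.Embedding.subtype fun x => x ∈ J) B) = B := by
            ext x
            simp
          rw [hB']
          exact hj) (by
        intro a b hab j hj
        exact hanti hab hj)
    have hJM : ∀ n, ∀ j : I, j ∈ J → j ∈ M n₀ → j ∈ M (n₀ + n) := by
      intro n j hj hjM
      have h1 := hn₀ (n₀ + n) (Nat.le_add_right _ _)
      have h2 : (⟨j, hj⟩ : J) ∈ {j : J | (j : I) ∈ M n₀} := hjM
      rw [← h1] at h2
      exact h2
    obtain ⟨n, hn⟩ := eventually_const r (fun n => M (n₀ + n))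
      (fun a b hab => hanti (Nat.add_le_add_left hab _)) (by
        intro n α hα β hβ hrβα
        have hα0 : α ∈ M n₀ := hanti (Nat.le_add_right _ _) hα
        have hβ0 : β ∈ M n₀ := hβ
        have h1 : ((e α ⟨β, hrβα⟩ : J) : I) ∈ M n₀ := by
          refine hM n₀ {α, β} ?_ (Or.inr (Or.inl ?_))
          · intro x hx
            simp only [Finset.coe_insert, Finset.coe_singleton, Set.mem_insert_iff,
              Set.mem_singleton_iff] at hx
            rcases hx with rfl | rfl
            · exact hα0
            · exact hβ0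
          · simp only [Set.mem_iUnion]
            exact ⟨α, by simp, β, by simp, hrβα, rfl⟩
        have h2 := hJM n _ (e α ⟨β, hrβα⟩).2 h1
        refine hM (n₀ + n) {α, ((e α ⟨β, hrβα⟩ : J) : I)} ?_ (Or.inr (Or.inr ?_))
        · intro x hx
          simp only [Finset.coe_insert, Finset.coe_singleton, Set.mem_insert_iff,
            Set.mem_singleton_iff] at hx
          rcases hx with rfl | rfl
          · exact hα
          · exact h2
        · simp only [Set.mem_iUnion]
          refine ⟨α, by simp, ⟨β, hrβα⟩, ?_, rfl⟩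
          simp)
    refine ⟨n₀ + n, fun m hm => ?_⟩
    have h1 := hn (m - n₀) (by omega)
    have h2 : n₀ + (m - n₀) = m := by omega
    simp only [h2] at h1
    exact h1

theorem hasDCC_aleph (n : ℕ) : ∀ I : Type v, #I ≤ ℵ_ (n : Ordinal.{v}) → HasDCC I := by
  induction n with
  | zero =>
    intro I hI
    refine hasDCC_of_countable I ?_
    simpa using hI
  | succ n ih =>
    intro I hI
    refine hasDCC_step (ℵ_ (n : Ordinal.{v})) ih I ?_
    rw [Cardinal.succ_aleph]
    simpa using hI

theorem hasDCC_of_lt_aleph_omega (I : Type v) (h : #I < ℵ_ Ordinal.omega0) : HasDCC I := by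
  rcases le_or_gt (#I) ℵ₀ with hle | hlt
  · exact hasDCC_of_countable I hle
  · obtain ⟨α, hα⟩ := Cardinal.mem_range_aleph_iff.mpr hlt.le
    rw [← hα] at h
    have hαω : α < Ordinal.omega0 := Cardinal.aleph_lt_aleph.mp h
    obtain ⟨n, rfl⟩ := Ordinal.lt_omega0.mp hαω
    exact hasDCC_aleph n I hα.ge

end Pool.Agent.MP_e848aa_gt.FreeSet
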