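import Pool.Agent.MP_e848aa_gt.FreeSet.Defs

/-!
The counterexample built from a set `Λ` with the free set property.

Points of the domain: pairs `(z, γ)` where `z : List Bool → Λ` is a labelling
of the binary tree and `γ` is a branch, and isolated points `d : Finset Λ`.
The map forgets the branch.
-/

namespace Pool.Agent.MP_e848aa_gt.FreeSet

open Set

universe u

/-- The domain. -/
inductive SX (Λ : Type u) : Type u
  | pt (z : List Bool → Λ) (γ : ℕ → Bool) : SX Λ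
  | fs (d : Finset Λ) : SX Λ

/-- The range. -/
inductive SY (Λ : Type u) : Type u
  | pt (z : List Bool → Λ) : SY Λ
  | fs (d : Finset Λ) : SY Λ

variable {Λ : Type u}

/-- `Off m β ρ`: `ρ` has length at most `m` and is not an initial segment of `β`. -/
def Off (m : ℕ) (β : ℕ → Bool) (ρ : List Bool) : Prop :=
  ρ.length ≤ m ∧ ∃ p, ∃ hp : p < ρ.length, ρ[p] ≠ β p

/-- Basic sets of the domain. -/
def B (m : ℕ) (y : List Bool → Λ) (β : ℕ → Bool) : Set (SX Λ) :=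
  {x | (∃ z γ, x = SX.pt z γ ∧ ∃ σ : List Bool,
          (∀ ρ : List Bool, ρ.length ≤ m → z (σ ++ ρ) = y ρ) ∧
          ∀ p < m, γ (σ.length + p) = β p) ∨
       (∃ d : Finset Λ, x = SX.fs d ∧ ∀ ρ, Off m β ρ → y ρ ∈ d)}

theorem mem_B_inl {m : ℕ} {y z : List Bool → Λ} {β γ : ℕ → Bool} :
    (SX.pt z γ) ∈ B m y β ↔ ∃ σ : List Bool,
      (∀ ρ : List Bool, ρ.length ≤ m → z (σ ++ ρ) = y ρ) ∧
          ∀ p < m, γ (σ.length + p) = β p := by
  constructor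
  · rintro (⟨z', γ', h, h'⟩ | ⟨d, h, -⟩)
    · obtain ⟨rfl, rfl⟩ : z = z' ∧ γ = γ' := SX.pt.inj h
      exact h'
    · exact absurd h (by rintro ⟨⟩)
  · intro h
    exact Or.inl ⟨z, γ, rfl, h⟩

theorem mem_B_inr {m : ℕ} {y : List Bool → Λ} {β : ℕ → Bool} {d : Finset Λ} :
    (SX.fs d) ∈ B m y β ↔ ∀ ρ, Off m β ρ → y ρ ∈ d := by
  constructor
  · rintro (⟨z', γ', h, h'⟩ | ⟨d', h, h'⟩)
    · exact absurd h (by rintro ⟨⟩)
    · obtain rfl : d = d' := SX.fs.inj h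
      exact h'
  · intro h
    exact Or.inr ⟨d, rfl, h⟩

theorem B_anti {m m' : ℕ} (h : m ≤ m') (y : List Bool → Λ) (β : ℕ → Bool) :
    B m' y β ⊆ B m y β := by
  rintro (⟨z, γ⟩ | d) hx
  · obtain ⟨σ, h1, h2⟩ := mem_B_inl.1 hx
    exact mem_B_inl.2 ⟨σ, fun ρ hρ => h1 ρ (hρ.trans h), fun p hp => h2 p (hp.trans_le h)⟩
  · have h1 := mem_B_inr.1 hx
    exact mem_B_inr.2 fun ρ hρ => h1 ρ ⟨hρ.1.trans h, hρ.2⟩

theorem self_mem_B (m : ℕ) (y : List Bool → Λ) (β : ℕ → Bool) :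
    (SX.pt y β) ∈ B m y β :=
  mem_B_inl.2 ⟨[], fun ρ _ => by simp, fun p _ => by simp⟩

/-- `B m y β` depends only on the restrictions of `y` and `β`. -/
theorem B_congr {m : ℕ} {y y' : List Bool → Λ} {β β' : ℕ → Bool}
    (hy : ∀ ρ : List Bool, ρ.length ≤ m → y ρ = y' ρ) (hβ : ∀ p < m, β p = β' p) :
    B m y β ⊆ B m y' β' := by
  rintro (⟨z, γ⟩ | d) hx
  · obtain ⟨σ, h1, h2⟩ := mem_B_inl.1 hx
    exact mem_B_inl.2 ⟨σ, fun ρ hρ => (h1 ρ hρ).trans (hy ρ hρ),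
      fun p hp => (h2 p hp).trans (hβ p hp)⟩
  · have h1 := mem_B_inr.1 hx
    refine mem_B_inr.2 ?_
    rintro ρ ⟨hρ, p, hp, hne⟩
    rw [← hy ρ hρ]
    refine h1 ρ ⟨hρ, p, hp, ?_⟩
    rw [hβ p (hp.trans_le hρ)]
    exact hne

/-- The topology of the domain. -/
instance topX : TopologicalSpace (SX Λ) where
  IsOpen O := ∀ y β, (SX.pt y β) ∈ O → ∃ m, B m y β ⊆ O
  isOpen_univ := fun _ _ _ => ⟨0, Set.subset_univ _⟩
  isOpen_inter := by
    intro O P hO hP y β h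
    obtain ⟨m, hm⟩ := hO y β h.1
    obtain ⟨n, hn⟩ := hP y β h.2
    exact ⟨max m n, Set.subset_inter ((B_anti (le_max_left _ _) y β).trans hm)
      ((B_anti (le_max_right _ _) y β).trans hn)⟩
  isOpen_sUnion := by
    intro S hS y β h
    obtain ⟨O, hO, hyO⟩ := h
    obtain ⟨m, hm⟩ := hS O hO y β hyO
    exact ⟨m, hm.trans (Set.subset_sUnion_of_mem hO)⟩

theorem isOpen_iff {O : Set (SX Λ)} :
    IsOpen O ↔ ∀ y β, (SX.pt y β) ∈ O → ∃ m, B m y β ⊆ O := Iff.rfl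

/-- The map. -/
def proj : SX Λ → SY Λ
  | SX.pt z _ => SY.pt z
  | SX.fs d => SY.fs d

/-- The quotient topology on the range. -/
instance topY : TopologicalSpace (SY Λ) := TopologicalSpace.coinduced proj topX

theorem continuous_proj : Continuous (proj : SX Λ → SY Λ) := continuous_coinduced_rng

theorem proj_surjective : Function.Surjective (proj : SX Λ → SY Λ) := by
  rintro (z | d)
  · exact ⟨SX.pt z (fun _ => false), rfl⟩
  · exact ⟨SX.fs d, rfl⟩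

theorem isOpen_Y {O : Set (SY Λ)} : IsOpen O ↔ IsOpen (proj ⁻¹' O) := isOpen_coinduced

/-- The fibre over `y` is a continuous image of the Cantor space. -/
theorem continuous_fibre (y : List Bool → Λ) :
    Continuous (fun β : ℕ → Bool => (SX.pt y β)) := by
  rw [continuous_def]
  intro O hO
  rw [isOpen_iff_forall_mem_open]
  intro β hβ
  obtain ⟨m, hm⟩ := hO y β hβ
  refine ⟨{β' | ∀ p ∈ Finset.range m, β' p = β p}, fun β' hβ' => ?_, ?_, fun p _ => rfl⟩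
  · exact hm (mem_B_inl.2 ⟨[], fun ρ _ => by simp, fun p hp => by
      simpa using hβ' p (Finset.mem_range.2 hp)⟩)
  · have : {β' : ℕ → Bool | ∀ p ∈ Finset.range m, β' p = β p} =
        ⋂ p ∈ Finset.range m, (fun β' : ℕ → Bool => β' p) ⁻¹' {β p} := by
      ext; simp
    rw [this]
    exact isOpen_biInter_finset fun p _ => (isOpen_discrete _).preimage (continuous_apply p)

theorem uniform (y : List Bool → Λ) {O : Set (SX Λ)} (hO : IsOpen O)
    (h : ∀ β, (SX.pt y β) ∈ O) : ∃ m, ∀ β, B m y β ⊆ O := by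
  choose m hm using fun β => hO y β (h β)
  have hopen : ∀ β : ℕ → Bool, IsOpen {β' : ℕ → Bool | ∀ p ∈ Finset.range (m β), β' p = β p} := by
    intro β
    have : {β' : ℕ → Bool | ∀ p ∈ Finset.range (m β), β' p = β p} =
        ⋂ p ∈ Finset.range (m β), (fun β' : ℕ → Bool => β' p) ⁻¹' {β p} := by
      ext; simp
    rw [this]
    exact isOpen_biInter_finset fun p _ => (isOpen_discrete _).preimage (continuous_apply p)
  obtain ⟨S, hS⟩ := (isCompact_univ (X := ℕ → Bool)).elim_finite_subcover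
    (fun β => {β' : ℕ → Bool | ∀ p ∈ Finset.range (m β), β' p = β p}) hopen
    (fun β _ => Set.mem_iUnion.2 ⟨β, fun p _ => rfl⟩)
  refine ⟨S.sup m, fun β => ?_⟩
  have := hS (Set.mem_univ β)
  simp only [Set.mem_iUnion, exists_prop] at this
  obtain ⟨β₀, hβ₀, hβ⟩ := this
  have h1 : B (S.sup m) y β ⊆ B (m β₀) y β := B_anti (Finset.le_sup hβ₀) y β
  have h2 : B (m β₀) y β ⊆ B (m β₀) y β₀ :=
    B_congr (fun ρ _ => rfl) fun p hp => hβ p (Finset.mem_range.2 hp)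
  exact (h1.trans h2).trans (hm β₀)

theorem isClosedMap_proj : IsClosedMap (proj : SX Λ → SY Λ) := by
  intro C hC
  rw [← isOpen_compl_iff, isOpen_Y, isOpen_iff]
  intro y β hyβ
  have h1 : ∀ β', (SX.pt y β') ∈ Cᶜ := fun β' hβ' => hyβ ⟨_, hβ', rfl⟩
  obtain ⟨m, hm⟩ := uniform y hC.isOpen_compl h1
  refine ⟨m, ?_⟩
  rintro (⟨z, γ⟩ | d) hx
  · rintro ⟨x', hx'C, hx'⟩
    obtain ⟨σ, h2, h3⟩ := mem_B_inl.1 hx
    rcases x' with ⟨z', γ'⟩ | d'
    · obtain rfl : z' = z := SY.pt.inj hx'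
      refine hm (fun p => γ' (σ.length + p)) (mem_B_inl.2 ⟨σ, h2, fun p _ => rfl⟩) hx'C
    · exact absurd hx' (by rintro ⟨⟩)
  · rintro ⟨x', hx'C, hx'⟩
    rcases x' with ⟨z', γ'⟩ | d'
    · exact absurd hx' (by rintro ⟨⟩)
    · obtain rfl : d' = d := SY.fs.inj hx'
      exact hm β hx hx'C

theorem perfectMapping_proj : PerfectMapping (proj : SX Λ → SY Λ) := by
  refine ⟨⟨continuous_proj, proj_surjective, isClosedMap_proj⟩, ?_⟩
  rintro (y | d)
  · have : (proj : SX Λ → SY Λ) ⁻¹' {SY.pt y} =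
        (fun β : ℕ → Bool => (SX.pt y β)) '' Set.univ := by
      ext x
      constructor
      · intro hx
        rcases x with ⟨z, γ⟩ | d
        · obtain rfl : z = y := SY.pt.inj hx
          exact ⟨γ, trivial, rfl⟩
        · exact absurd hx (by rintro ⟨⟩)
      · rintro ⟨β, -, rfl⟩
        rfl
    rw [this]
    exact isCompact_univ.image (continuous_fibre y)
  · have : (proj : SX Λ → SY Λ) ⁻¹' {SY.fs d} = {SX.fs d} := by
      ext x
      constructor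
      · intro hx
        rcases x with ⟨z, γ⟩ | d'
        · exact absurd hx (by rintro ⟨⟩)
        · obtain rfl : d' = d := SY.fs.inj hx
          rfl
      · rintro rfl
        rfl
    rw [this]
    exact isCompact_singleton

/-- The members of the refinement. -/
def K (m : ℕ) (t : {ρ : List Bool // ρ.length ≤ m} → Λ) (v : Fin m → Bool) : Set (SX Λ) :=
  {x | (∃ z γ, x = SX.pt z γ ∧ ∃ σ : List Bool,
          (∀ ρ : {ρ : List Bool // ρ.length ≤ m}, z (σ ++ (!γ σ.length) :: ρ.1) = t ρ) ∧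
          ∀ p : Fin m, γ (σ.length + 1 + p) = v p) ∨
       (∃ d : Finset Λ, x = SX.fs d ∧ ∀ ρ, t ρ ∈ d)}

theorem mem_K_inl {m : ℕ} {t : {ρ : List Bool // ρ.length ≤ m} → Λ} {v : Fin m → Bool}
    {z : List Bool → Λ} {γ : ℕ → Bool} :
    (SX.pt z γ) ∈ K m t v ↔ ∃ σ : List Bool,
          (∀ ρ : {ρ : List Bool // ρ.length ≤ m}, z (σ ++ (!γ σ.length) :: ρ.1) = t ρ) ∧
          ∀ p : Fin m, γ (σ.length + 1 + p) = v p := by
  constructor
  · rintro (⟨z', γ', h, h'⟩ | ⟨d, h, -⟩)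
    · obtain ⟨rfl, rfl⟩ : z = z' ∧ γ = γ' := SX.pt.inj h
      exact h'
    · exact absurd h (by rintro ⟨⟩)
  · intro h
    exact Or.inl ⟨z, γ, rfl, h⟩

theorem mem_K_inr {m : ℕ} {t : {ρ : List Bool // ρ.length ≤ m} → Λ} {v : Fin m → Bool}
    {d : Finset Λ} : (SX.fs d) ∈ K m t v ↔ ∀ ρ, t ρ ∈ d := by
  constructor
  · rintro (⟨z', γ', h, h'⟩ | ⟨d', h, h'⟩)
    · exact absurd h (by rintro ⟨⟩)
    · obtain rfl : d = d' := SX.fs.inj h
      exact h'
  · intro h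
    exact Or.inr ⟨d, rfl, h⟩

theorem isOpen_K (m : ℕ) (t : {ρ : List Bool // ρ.length ≤ m} → Λ) (v : Fin m → Bool) :
    IsOpen (K m t v) := by
  rw [isOpen_iff]
  intro z γ h
  obtain ⟨σ, h1, h2⟩ := mem_K_inl.1 h
  refine ⟨σ.length + 1 + m, ?_⟩
  rintro (⟨w, δ⟩ | d) hx
  · obtain ⟨τ, h3, h4⟩ := mem_B_inl.1 hx
    refine mem_K_inl.2 ⟨τ ++ σ, fun ρ => ?_, fun p => ?_⟩
    · have e1 : δ (τ ++ σ).length = γ σ.length := by
        rw [List.length_append]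
        exact h4 _ (by omega)
      rw [e1, List.append_assoc, h3, h1]
      have := ρ.2
      simp only [List.length_append, List.length_cons]
      omega
    · have := h4 (σ.length + 1 + p) (by have := p.2; omega)
      rw [← h2, ← this, List.length_append]
      congr 1
      omega
  · have h3 := mem_B_inr.1 hx
    refine mem_K_inr.2 fun ρ => ?_
    rw [← h1 ρ]
    refine h3 _ ⟨?_, σ.length, ?_, ?_⟩
    · have := ρ.2
      simp only [List.length_append, List.length_cons]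
      omega
    · simp
    · simp

theorem K_subset_B {m : ℕ} {y : List Bool → Λ} {β : ℕ → Bool} :
    K m (fun ρ => y ρ.1) (fun p => β p) ⊆ B m y β := by
  rintro (⟨z, γ⟩ | d) hx
  · obtain ⟨σ, h1, h2⟩ := mem_K_inl.1 hx
    refine mem_B_inl.2 ⟨σ ++ [!γ σ.length], fun ρ hρ => ?_, fun p hp => ?_⟩
    · simpa using h1 ⟨ρ, hρ⟩
    · simpa using h2 ⟨p, hp⟩
  · have h1 := mem_K_inr.1 hx
    exact mem_B_inr.2 fun ρ hρ => h1 ⟨ρ, hρ.1⟩

theorem mem_K_self (m : ℕ) (z : List Bool → Λ) (γ : ℕ → Bool) :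
    (SX.pt z γ) ∈
      K m (fun ρ => z ((!γ 0) :: ρ.1)) (fun p => γ (1 + p)) :=
  mem_K_inl.2 ⟨[], fun ρ => by simp, fun p => by simp⟩

theorem countable_K (x : SX Λ) :
    {P : Set (SX Λ) | ∃ m t v, P = K m t v ∧ x ∈ P}.Countable := by
  rcases x with ⟨z, γ⟩ | d
  · refine (Set.countable_range (fun q : ℕ × List Bool =>
      K q.1 (fun ρ => z (q.2 ++ (!γ q.2.length) :: ρ.1))
        (fun p : Fin q.1 => γ (q.2.length + 1 + p)))).mono ?_
    rintro _ ⟨m, t, v, rfl, h⟩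
    obtain ⟨σ, h1, h2⟩ := mem_K_inl.1 h
    refine ⟨(m, σ), ?_⟩
    dsimp only
    congr 1
    · funext ρ; exact h1 ρ
    · funext p; exact h2 p
  · have h1 : ∀ m, Finite {ρ : List Bool // ρ.length ≤ m} := fun m =>
      (List.finite_length_le Bool m).to_subtype
    have h2 : ∀ m, {t : {ρ : List Bool // ρ.length ≤ m} → Λ | ∀ ρ, t ρ ∈ d}.Finite := by
      intro m
      have := Set.Finite.pi (ι := {ρ : List Bool // ρ.length ≤ m}) (κ := fun _ => Λ)
        (t := fun _ => (d : Set Λ)) (fun _ => d.finite_toSet)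
      refine this.subset fun t ht => ?_
      simpa using ht
    have h3 : (⋃ m, (fun q : ({ρ : List Bool // ρ.length ≤ m} → Λ) × (Fin m → Bool) =>
        K m q.1 q.2) '' ({t | ∀ ρ, t ρ ∈ d} ×ˢ Set.univ)).Countable :=
      Set.countable_iUnion fun m => (((h2 m).prod Set.finite_univ).image _).countable
    refine h3.mono ?_
    rintro _ ⟨m, t, v, rfl, h⟩
    exact Set.mem_iUnion.2 ⟨m, (t, v), ⟨mem_K_inr.1 h, trivial⟩, rfl⟩

theorem metalindelof_SX : Metalindelof (SX Λ) := by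
  rintro U ⟨hU, hcov⟩
  refine ⟨{P | ∃ m y β, P = K m (fun ρ => y ρ.1) (fun p => β p) ∧ ∃ O ∈ U, B m y β ⊆ O} ∪
    {P | ∃ d : Finset Λ, P = {(SX.fs d)}}, ⟨?_, ?_⟩, ?_, ?_⟩
  · rintro _ (⟨m, y, β, rfl, -⟩ | ⟨d, rfl⟩)
    · exact isOpen_K _ _ _
    · rw [isOpen_iff]
      rintro y β h
      exact absurd h (by rintro ⟨⟩)
  · rw [Set.eq_univ_iff_forall]
    rintro (⟨z, γ⟩ | d)
    · have h1 : (SX.pt (fun ρ => z ((!γ 0) :: ρ)) (fun p => γ (1 + p)) : SX Λ) ∈ ⋃₀ U :=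
        hcov ▸ Set.mem_univ _
      obtain ⟨O, hO, hmem⟩ := h1
      obtain ⟨m, hm⟩ := hU O hO _ _ hmem
      exact ⟨_, Or.inl ⟨m, _, _, rfl, O, hO, hm⟩, mem_K_self m z γ⟩
    · exact ⟨_, Or.inr ⟨d, rfl⟩, rfl⟩
  · rintro _ (⟨m, y, β, rfl, O, hO, hm⟩ | ⟨d, rfl⟩)
    · exact ⟨O, hO, K_subset_B.trans hm⟩
    · have h1 : (SX.fs d) ∈ ⋃₀ U := hcov ▸ Set.mem_univ _
      obtain ⟨O, hO, hmem⟩ := h1
      exact ⟨O, hO, Set.singleton_subset_iff.2 hmem⟩
  · intro x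
    refine ((countable_K x).union (Set.countable_singleton {x})).mono ?_
    rintro _ ⟨⟨m, y, β, rfl, -⟩ | ⟨d, rfl⟩, hx⟩
    · exact Or.inl ⟨_, _, _, rfl, hx⟩
    · right
      obtain rfl : x = SX.fs d := hx
      rfl

theorem not_metalindelof_SY (hΛ : FreeSetProperty Λ) : ¬ Metalindelof (SY Λ) := by
  classical
  intro hY
  obtain ⟨γ₀, -⟩ := hΛ (fun _ => ∅) (fun _ => Set.countable_empty)
  let U : Λ → Set (SY Λ) := fun a => {x | (∃ z : List Bool → Λ, x = SY.pt z ∧ ∃ ρ, z ρ = a) ∨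
    ∃ d : Finset Λ, x = SY.fs d}
  have hUinl : ∀ a (z : List Bool → Λ), (SY.pt z) ∈ U a ↔ ∃ ρ, z ρ = a := by
    intro a z
    constructor
    · rintro (⟨z', h, h'⟩ | ⟨d, h⟩)
      · obtain rfl : z = z' := SY.pt.inj h
        exact h'
      · exact absurd h (by rintro ⟨⟩)
    · intro h
      exact Or.inl ⟨z, rfl, h⟩
  have hU : ∀ a, IsOpen (U a) := by
    intro a
    rw [isOpen_Y, isOpen_iff]
    intro z γ h
    obtain ⟨ρ₀, rfl⟩ := (hUinl a z).1 h
    refine ⟨ρ₀.length, ?_⟩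
    rintro (⟨w, δ⟩ | d) hx
    · obtain ⟨τ, h3, -⟩ := mem_B_inl.1 hx
      exact (hUinl _ w).2 ⟨τ ++ ρ₀, h3 ρ₀ le_rfl⟩
    · exact Or.inr ⟨d, rfl⟩
  obtain ⟨W, ⟨hWo, hWc⟩, hWU, hWp⟩ := hY (Set.range U) ⟨(by rintro _ ⟨a, rfl⟩; exact hU a), (by
    rw [Set.sUnion_range, Set.eq_univ_iff_forall]
    rintro (z | d)
    · exact Set.mem_iUnion.2 ⟨z [], (hUinl _ z).2 ⟨[], rfl⟩⟩
    · exact Set.mem_iUnion.2 ⟨γ₀ 0, Or.inr ⟨d, rfl⟩⟩)⟩
  have hWU' : ∀ w ∈ W, ∃ a, w ⊆ U a := by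
    intro w hw
    obtain ⟨_, ⟨a, rfl⟩, ha⟩ := hWU w hw
    exact ⟨a, ha⟩
  choose lam hlam using hWU'
  let F : Finset Λ → Set Λ := fun A => {a | ∃ w, ∃ hw : w ∈ W, (SY.fs A) ∈ w ∧ lam w hw = a}
  have hF : ∀ A, (F A).Countable := by
    intro A
    have hc : Countable {w : Set (SY Λ) | w ∈ W ∧ (SY.fs A) ∈ w} := (hWp _).to_subtype
    refine (Set.countable_range
      (fun w : {w : Set (SY Λ) | w ∈ W ∧ (SY.fs A) ∈ w} => lam w.1 w.2.1)).mono ?_
    rintro j ⟨w, hw, hxw, rfl⟩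
    exact ⟨⟨w, hw, hxw⟩, rfl⟩
  obtain ⟨γ, hγinj, hγ⟩ := hΛ F hF
  let y : List Bool → Λ := fun ρ => γ (Encodable.encode ρ)
  have hyinj : Function.Injective y := hγinj.comp Encodable.encode_injective
  have hy : (SY.pt y) ∈ ⋃₀ W := hWc ▸ Set.mem_univ _
  obtain ⟨w, hw, hyw⟩ := hy
  obtain ⟨ρ, hρ⟩ := (hUinl _ y).1 (hlam w hw hyw)
  let β : ℕ → Bool := fun p => ρ.getD p false
  obtain ⟨m, hm⟩ := (isOpen_Y.1 (hWo w hw)) y β hyw
  have hfin : {ρ' : List Bool | Off m β ρ'}.Finite :=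
    (List.finite_length_le Bool m).subset fun ρ' h => h.1
  let A : Finset Λ := (hfin.image y).toFinset
  have hAw : (SY.fs A) ∈ w := by
    refine hm (show (SX.fs A) ∈ B m y β from mem_B_inr.2 fun ρ' hρ' => ?_)
    rw [Set.Finite.mem_toFinset]
    exact ⟨ρ', hρ', rfl⟩
  refine hγ (Encodable.encode ρ) A ?_ ⟨w, hw, hAw, hρ.symm⟩
  intro a ha
  rw [Set.Finite.mem_toFinset] at ha
  obtain ⟨ρ', hρ', rfl⟩ := ha
  refine ⟨Encodable.encode ρ', fun h => ?_, rfl⟩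
  obtain rfl : ρ' = ρ := Encodable.encode_injective h
  obtain ⟨-, p, hp, hne⟩ := hρ'
  apply hne
  simp [β, List.getD_eq_getElem?_getD, hp]

/-- The negative direction. -/
theorem exists_counterexample (hΛ : FreeSetProperty Λ) :
    ∃ (X Y : Type u) (_ : TopologicalSpace X) (_ : TopologicalSpace Y) (f : X → Y),
      PerfectMapping f ∧ Metalindelof X ∧ ¬ Metalindelof Y :=
  ⟨SX Λ, SY Λ, topX, topY, proj, perfectMapping_proj, metalindelof_SX,
    not_metalindelof_SY hΛ⟩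

end Pool.Agent.MP_e848aa_gt.FreeSet
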