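import Pool.Agent.MP_e848aa_gt.FreeSet.Defs

/-!
The combinatorial lemma on compact spaces: if closed nonempty sets `C i` of a
compact space are such that every finite set is missed by one of them, then
there are indices `i n` and points `x n` with `x n ∈ C (i m) ↔ n = m`.
-/

namespace Pool.Agent.MP_e848aa_gt.FreeSet

open Set

/-- Finite-like open sets. -/
def FinLike {K R : Type*} (D : R → Set K) (O : Set K) : Prop :=
  ∃ E : Set K, E.Finite ∧ E ⊆ O ∧ ∀ i, (D i ∩ O).Nonempty → (D i ∩ E).Nonempty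

/-- One step of the recursion. -/
theorem step {K R : Type*} [TopologicalSpace K] (D : R → Set K)
    (hD : ∀ i, IsClosed (D i))
    (ha : ∀ O : Set K, IsOpen O → O.Nonempty → ∃ i, D i ⊆ O)
    (O : Set K) (hO : IsOpen O) (hnf : ¬ FinLike D O) :
    ∃ i, D i ⊆ O ∧ ¬ FinLike D (O \ D i) := by
  have hne : O.Nonempty := by
    by_contra h
    rw [Set.not_nonempty_iff_eq_empty] at h
    exact hnf ⟨∅, Set.finite_empty, Set.empty_subset _, by simp [h]⟩
  obtain ⟨e, he⟩ := hne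
  have h1 : ∃ i, (D i ∩ O).Nonempty ∧ e ∉ D i := by
    by_contra h
    push Not at h
    exact hnf ⟨{e}, Set.finite_singleton _, by simpa using he,
      fun i hi => ⟨e, h i hi, rfl⟩⟩
  obtain ⟨i₁, hi₁, he₁⟩ := h1
  obtain ⟨i, hi⟩ := ha (O \ D i₁) (hO.sdiff (hD i₁)) ⟨e, he, he₁⟩
  by_cases hf : FinLike D (O \ D i)
  · obtain ⟨p, hp1, hpO⟩ := hi₁
    have hpD : p ∉ D i := fun h => (hi h).2 hp1
    obtain ⟨k, hk⟩ := ha (O \ D i) (hO.sdiff (hD i)) ⟨p, hpO, hpD⟩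
    refine ⟨k, fun x hx => (hk hx).1, ?_⟩
    rintro ⟨E', hE'fin, hE'O, hE'⟩
    obtain ⟨E, hEfin, hEO, hE⟩ := hf
    refine hnf ⟨E ∪ E', hEfin.union hE'fin,
      Set.union_subset (fun x hx => (hEO hx).1) (fun x hx => (hE'O hx).1), ?_⟩
    rintro j ⟨q, hqj, hqO⟩
    by_cases hqi : q ∈ D i
    · have hqk : q ∉ D k := fun h => (hk h).2 hqi
      obtain ⟨r, hr1, hr2⟩ := hE' j ⟨q, hqj, hqO, hqk⟩
      exact ⟨r, hr1, Or.inr hr2⟩
    · obtain ⟨r, hr1, hr2⟩ := hE j ⟨q, hqj, hqO, hqi⟩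
      exact ⟨r, hr1, Or.inl hr2⟩
  · exact ⟨i, fun x hx => (hi hx).1, hf⟩

/-- The recursion gives pairwise disjoint members. -/
theorem exists_disjoint_seq {K R : Type*} [TopologicalSpace K] (D : R → Set K)
    (hD : ∀ i, IsClosed (D i))
    (ha : ∀ O : Set K, IsOpen O → O.Nonempty → ∃ i, D i ⊆ O)
    (hnf : ¬ FinLike D (Set.univ : Set K)) :
    ∃ i : ℕ → R, ∀ n m, n ≠ m → Disjoint (D (i n)) (D (i m)) := by
  classical
  let S := {O : Set K // IsOpen O ∧ ¬ FinLike D O}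
  have hstep : ∀ O : S, ∃ i, D i ⊆ O.1 ∧ ¬ FinLike D (O.1 \ D i) :=
    fun O => step D hD ha O.1 O.2.1 O.2.2
  choose g hg1 hg2 using hstep
  let nxt : S → S := fun O => ⟨O.1 \ D (g O), O.2.1.sdiff (hD _), hg2 O⟩
  let s : ℕ → S := fun n => nxt^[n] ⟨Set.univ, isOpen_univ, hnf⟩
  have hs : ∀ n, (s (n + 1)).1 = (s n).1 \ D (g (s n)) := by
    intro n
    change (nxt^[n+1] _).1 = _
    rw [Function.iterate_succ_apply']
  have hmono : ∀ n k, (s (n + k)).1 ⊆ (s n).1 := by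
    intro n k
    induction k with
    | zero => exact le_rfl
    | succ k ih =>
      rw [← add_assoc, hs]
      exact Set.sdiff_subset.trans ih
  have hlt : ∀ n m, n < m → Disjoint (D (g (s n))) (D (g (s m))) := by
    intro n m hnm
    obtain ⟨k, rfl⟩ : ∃ k, m = (n + 1) + k := ⟨m - (n+1), by omega⟩
    rw [Set.disjoint_left]
    intro x hx1 hx2
    have h2 := hmono (n + 1) k (hg1 _ hx2)
    rw [hs] at h2
    exact h2.2 hx1
  refine ⟨fun n => g (s n), fun n m hnm => ?_⟩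
  rcases lt_or_gt_of_ne hnm with h | h
  · exact hlt n m h
  · exact (hlt m n h).symm

/-- The combinatorial lemma. -/
theorem exists_bijective_hits {K R : Type*} [TopologicalSpace K] [CompactSpace K]
    (C : R → Set K) (hC : ∀ i, IsClosed (C i)) (hne : ∀ i, (C i).Nonempty)
    (hfin : ∀ E : Set K, E.Finite → ∃ i, ∀ x ∈ E, x ∉ C i) :
    ∃ (i : ℕ → R) (x : ℕ → K), ∀ n m, x n ∈ C (i m) ↔ n = m := by
  classical
  -- a minimal closed set meeting all the `C i`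
  let P : Set (Set K) := {A | IsClosed A ∧ ∀ i, (A ∩ C i).Nonempty}
  have huniv : (Set.univ : Set K) ∈ P := ⟨isClosed_univ, fun i => by simpa using hne i⟩
  obtain ⟨M, -, hM⟩ : ∃ M, M ⊆ (Set.univ : Set K) ∧ Minimal (· ∈ P) M := by
    apply zorn_superset_nonempty P _ _ huniv
    intro c hcP hchain hcne
    refine ⟨⋂₀ c, ⟨isClosed_sInter fun A hA => (hcP hA).1, fun i => ?_⟩,
      fun A hA => Set.sInter_subset_of_mem hA⟩
    have hcne' : Nonempty c := hcne.to_subtype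
    have hdir : DirectedOn (· ⊇ ·) ((fun A => A ∩ C i) '' c) := by
      rintro _ ⟨A, hA, rfl⟩ _ ⟨B, hB, rfl⟩
      rcases hchain.total hA hB with h | h
      · exact ⟨A ∩ C i, ⟨A, hA, rfl⟩, subset_rfl,
          Set.inter_subset_inter_left _ h⟩
      · exact ⟨B ∩ C i, ⟨B, hB, rfl⟩, Set.inter_subset_inter_left _ h, subset_rfl⟩
    have hn : (⋂₀ ((fun A => A ∩ C i) '' c)).Nonempty := by
      apply IsCompact.nonempty_sInter_of_directed_nonempty_isCompact_isClosed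
        (hS := (hcne.image _).to_subtype) hdir
      · rintro _ ⟨A, hA, rfl⟩
        exact (hcP hA).2 i
      · rintro _ ⟨A, hA, rfl⟩
        exact (((hcP hA).1).inter (hC i)).isCompact
      · rintro _ ⟨A, hA, rfl⟩
        exact ((hcP hA).1).inter (hC i)
    obtain ⟨x, hx⟩ := hn
    simp only [Set.sInter_image, Set.mem_iInter, Set.mem_inter_iff] at hx
    obtain ⟨A₀, hA₀⟩ := hcne
    exact ⟨x, fun A hA => (hx A hA).1, (hx A₀ hA₀).2⟩
  have hMP : M ∈ P := hM.prop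
  -- pass to the subspace `M`
  let D : R → Set M := fun i => Subtype.val ⁻¹' C i
  have hD : ∀ i, IsClosed (D i) := fun i => (hC i).preimage continuous_subtype_val
  have ha : ∀ O : Set M, IsOpen O → O.Nonempty → ∃ i, D i ⊆ O := by
    intro O hO hOne
    by_contra hcon
    push Not at hcon
    obtain ⟨G, hG, rfl⟩ := isOpen_induced_iff.1 hO
    have hMG : M \ G ∈ P := by
      refine ⟨hMP.1.sdiff hG, fun i => ?_⟩
      obtain ⟨x, hx1, hx2⟩ := Set.not_subset.1 (hcon i)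
      exact ⟨x.1, ⟨x.2, hx2⟩, hx1⟩
    have hle := hM.le_of_le hMG Set.sdiff_subset
    obtain ⟨x, hx⟩ := hOne
    exact (hle x.2).2 hx
  have hnf : ¬ FinLike D (Set.univ : Set M) := by
    rintro ⟨E, hE, -, hE2⟩
    obtain ⟨i, hi⟩ := hfin (Subtype.val '' E) (hE.image _)
    obtain ⟨x, hx1, hx2⟩ := hMP.2 i
    obtain ⟨y, hy1, hy2⟩ := hE2 i ⟨⟨x, hx1⟩, hx2, trivial⟩
    exact hi y.1 ⟨y, hy2, rfl⟩ hy1
  obtain ⟨i, hi⟩ := exists_disjoint_seq D hD ha hnf
  have hx : ∀ n, ∃ x : K, x ∈ M ∧ x ∈ C (i n) := fun n => by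
    obtain ⟨x, hx1, hx2⟩ := hMP.2 (i n)
    exact ⟨x, hx1, hx2⟩
  choose x hx1 hx2 using hx
  refine ⟨i, x, fun n m => ⟨fun h => ?_, fun h => h ▸ hx2 n⟩⟩
  by_contra hnm
  have hd := Set.disjoint_left.1 (hi n m hnm)
  exact @hd ⟨x n, hx1 n⟩ (hx2 n) h

end Pool.Agent.MP_e848aa_gt.FreeSet
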