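import Pool.Agent.MP_e848aa_gt.Defs

/-! Perfect mappings and the free set property. -/

namespace Pool.Agent.MP_e848aa_gt

universe u v

/-- A perfect mapping: a closed mapping (continuous closed surjection) with compact fibres. -/
structure PerfectMapping {X : Type u} {Y : Type v} [TopologicalSpace X] [TopologicalSpace Y]
    (f : X → Y) : Prop extends ClosedMapping f where
  isCompact_fibre : ∀ y : Y, IsCompact (f ⁻¹' {y})

/-- The sequence `γ` enumerates without repetition an infinite free set for `F`:
no `γ n` lies in `F A` for a finite set `A` of other members of the sequence. -/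
def IsInfiniteFree {I : Type u} (F : Finset I → Set I) (γ : ℕ → I) : Prop :=
  Function.Injective γ ∧
    ∀ (n : ℕ) (A : Finset I), (∀ a ∈ A, ∃ m : ℕ, m ≠ n ∧ γ m = a) → γ n ∉ F A

/-- `I` has the free set property: every map from the finite subsets of `I` to
the countable subsets of `I` has an infinite free set. -/
def FreeSetProperty (I : Type u) : Prop :=
  ∀ F : Finset I → Set I, (∀ A, (F A).Countable) → ∃ γ : ℕ → I, IsInfiniteFree F γ

end Pool.Agent.MP_e848aa_gt
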