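import Pool.Agent.MP_e848aa_gt.FreeSet.Compact

/-!
Perfect images: if `X` is metalindelof, `f : X → Y` is perfect and `U` is an
open cover of `Y` without a point-countable open refinement, then every `F` on
(the index set of) `U` has an infinite free set.
-/

namespace Pool.Agent.MP_e848aa_gt.FreeSet

open Set

universe u v

/-- Admissible assignments: each point gets countably many indices and each
index is given to an open set of points. -/
def Good {X : Type u} {I : Type v} [TopologicalSpace X] (s : X → Set I) : Prop :=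
  (∀ x, (s x).Countable) ∧ ∀ i, IsOpen {x | i ∈ s x}

theorem good_empty {X : Type u} {I : Type v} [TopologicalSpace X] :
    Good (fun _ : X => (∅ : Set I)) :=
  ⟨fun _ => Set.countable_empty, fun _ => by simp⟩

theorem good_iUnion {X : Type u} {I : Type v} [TopologicalSpace X] {s : ℕ → X → Set I}
    (hs : ∀ n, Good (s n)) : Good (fun x => ⋃ n, s n x) := by
  refine ⟨fun x => Set.countable_iUnion fun n => (hs n).1 x, fun i => ?_⟩
  have : {x | i ∈ ⋃ n, s n x} = ⋃ n, {x | i ∈ s n x} := by ext; simp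
  rw [this]
  exact isOpen_iUnion fun n => (hs n).2 i

theorem good_union {X : Type u} {I : Type v} [TopologicalSpace X] {s t : X → Set I}
    (hs : Good s) (ht : Good t) : Good (fun x => s x ∪ t x) := by
  refine ⟨fun x => (hs.1 x).union (ht.1 x), fun i => ?_⟩
  exact (hs.2 i).union (ht.2 i)

theorem good_comp {X : Type u} {I J : Type v} [TopologicalSpace X] {s : X → Set J}
    (hs : Good s) (c : J → Set I) (hc : ∀ j, (c j).Countable) :
    Good (fun x => ⋃ j ∈ s x, c j) := by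
  refine ⟨fun x => (hs.1 x).biUnion fun j _ => hc j, fun i => ?_⟩
  have : {x | i ∈ ⋃ j ∈ s x, c j} = ⋃ j ∈ {j | i ∈ c j}, {x | j ∈ s x} := by
    ext x
    simp only [Set.mem_ofPred_eq, Set.mem_iUnion, exists_prop]
    constructor
    · rintro ⟨j, h1, h2⟩; exact ⟨j, h2, h1⟩
    · rintro ⟨j, h1, h2⟩; exact ⟨j, h2, h1⟩
  rw [this]
  exact isOpen_biUnion fun j _ => hs.2 j

theorem countable_finset_subset {I : Type v} {s : Set I} (hs : s.Countable) :
    {A : Finset I | (A : Set I) ⊆ s}.Countable := by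
  have h := (Set.countable_ofPred_finite_subset hs).preimage
    (f := fun A : Finset I => (A : Set I)) Finset.coe_injective
  refine h.mono fun A hA => ?_
  exact ⟨A.finite_toSet, hA⟩

theorem good_apply {X : Type u} {I : Type v} [TopologicalSpace X] {s : X → Set I}
    (hs : Good s) (F : Finset I → Set I) (hF : ∀ A, (F A).Countable) :
    Good (fun x => ⋃ A ∈ {A : Finset I | (A : Set I) ⊆ s x}, F A) := by
  refine ⟨fun x => ?_, fun i => ?_⟩
  · exact (countable_finset_subset (hs.1 x)).biUnion fun A _ => hF A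
  · have : {x | i ∈ ⋃ A ∈ {A : Finset I | (A : Set I) ⊆ s x}, F A} =
        ⋃ A ∈ {A : Finset I | i ∈ F A}, ⋂ a ∈ A, {x | a ∈ s x} := by
      ext x
      simp only [Set.mem_ofPred_eq, Set.mem_iUnion, exists_prop, Set.mem_iInter]
      constructor
      · rintro ⟨A, h1, h2⟩; exact ⟨A, h2, fun a ha => h1 ha⟩
      · rintro ⟨A, h1, h2⟩; exact ⟨A, fun a ha => h2 a ha, h1⟩
    rw [this]
    refine isOpen_biUnion fun A _ => isOpen_biInter_finset fun a _ => hs.2 a

/-- Closure of an admissible assignment under `F`. -/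
theorem exists_closed {X : Type u} {I : Type v} [TopologicalSpace X] {s : X → Set I}
    (hs : Good s) (F : Finset I → Set I) (hF : ∀ A, (F A).Countable) :
    ∃ t : X → Set I, Good t ∧ (∀ x, s x ⊆ t x) ∧
      ∀ x (A : Finset I), (A : Set I) ⊆ t x → F A ⊆ t x := by
  classical
  let nxt : (X → Set I) → (X → Set I) := fun s x =>
    s x ∪ ⋃ A ∈ {A : Finset I | (A : Set I) ⊆ s x}, F A
  let r : ℕ → X → Set I := fun n => nxt^[n] s
  have hr : ∀ n, r (n + 1) = nxt (r n) := fun n => Function.iterate_succ_apply' _ _ _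
  have hgood : ∀ n, Good (r n) := by
    intro n
    induction n with
    | zero => exact hs
    | succ n ih =>
      rw [hr]
      exact good_union ih (good_apply ih F hF)
  have hmono : ∀ x n k, r n x ⊆ r (n + k) x := by
    intro x n k
    induction k with
    | zero => exact subset_rfl
    | succ k ih =>
      rw [← add_assoc, hr]
      exact ih.trans Set.subset_union_left
  refine ⟨fun x => ⋃ n, r n x, good_iUnion hgood, fun x => Set.subset_iUnion (fun n => r n x) 0,
    ?_⟩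
  intro x A hA
  have hN : ∃ N, (A : Set I) ⊆ r N x := by
    have h1 : ∀ a ∈ A, ∃ n, a ∈ r n x := fun a ha => by
      simpa using hA ha
    choose! n hn using h1
    refine ⟨A.sup n, fun a ha => ?_⟩
    have hle : n a ≤ A.sup n := Finset.le_sup (f := n) ha
    obtain ⟨k, hk⟩ := Nat.exists_eq_add_of_le hle
    rw [hk]
    exact hmono x (n a) k (hn a ha)
  obtain ⟨N, hN⟩ := hN
  intro i hi
  refine Set.mem_iUnion.2 ⟨N + 1, ?_⟩
  rw [hr]
  refine Or.inr ?_
  simp only [Set.mem_iUnion]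
  exact ⟨A, hN, hi⟩

/-- Using the metalindelof property of `X`. -/
theorem exists_good_of_cover {X : Type u} {I : Type v} [TopologicalSpace X] (hX : Metalindelof X)
    (G : I → Set X) (hG : ∀ i, IsOpen (G i)) (hcov : ∀ x, ∃ i, x ∈ G i) :
    ∃ s : X → Set I, Good s ∧ (∀ x, ∃ i, i ∈ s x) ∧ ∀ i x, i ∈ s x → x ∈ G i := by
  classical
  obtain ⟨V, ⟨hVo, hVc⟩, hVr, hVp⟩ := hX (Set.range G) ⟨(by rintro _ ⟨i, rfl⟩; exact hG i),
    (by
      rw [Set.sUnion_range, Set.eq_univ_iff_forall]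
      intro x
      exact Set.mem_iUnion.2 (hcov x))⟩
  have hVr' : ∀ v ∈ V, ∃ i, v ⊆ G i := by
    intro v hv
    obtain ⟨_, ⟨i, rfl⟩, hi⟩ := hVr v hv
    exact ⟨i, hi⟩
  choose i hi using hVr'
  refine ⟨fun x => {j | ∃ v, ∃ hv : v ∈ V, x ∈ v ∧ i v hv = j}, ⟨fun x => ?_, fun j => ?_⟩, fun x => ?_,
    ?_⟩
  · have hc : Countable {v : Set X | v ∈ V ∧ x ∈ v} := (hVp x).to_subtype
    refine (Set.countable_range
      (fun v : {v : Set X | v ∈ V ∧ x ∈ v} => i v.1 v.2.1)).mono ?_
    rintro j ⟨v, hv, hxv, rfl⟩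
    exact ⟨⟨v, hv, hxv⟩, rfl⟩
  · have : {x | j ∈ {j | ∃ v, ∃ hv : v ∈ V, x ∈ v ∧ i v hv = j}} =
        ⋃ v ∈ {v | ∃ hv : v ∈ V, i v hv = j}, v := by
      ext x
      simp only [Set.mem_ofPred_eq, Set.mem_iUnion, exists_prop]
      constructor
      · rintro ⟨v, hv, h1, h2⟩; exact ⟨v, ⟨hv, h2⟩, h1⟩
      · rintro ⟨v, ⟨hv, h2⟩, h1⟩; exact ⟨v, hv, h1, h2⟩
    rw [this]
    refine isOpen_biUnion ?_
    rintro v ⟨hv, -⟩
    exact hVo v hv
  · have hx : x ∈ ⋃₀ V := hVc ▸ Set.mem_univ x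
    obtain ⟨v, hv, hxv⟩ := hx
    exact ⟨i v hv, v, hv, hxv, rfl⟩
  · rintro j x ⟨v, hv, hxv, rfl⟩
    exact hi v hv hxv

/-- Saturated interior for closed maps. -/
theorem isOpen_sat {X : Type u} {Y : Type v} [TopologicalSpace X] [TopologicalSpace Y] {f : X → Y}
    (hf : IsClosedMap f) {O : Set X} (hO : IsOpen O) :
    IsOpen {y | ∀ x, f x = y → x ∈ O} := by
  have : {y | ∀ x, f x = y → x ∈ O} = (f '' Oᶜ)ᶜ := by
    ext y
    simp only [Set.mem_ofPred_eq, Set.mem_compl_iff, Set.mem_image, not_exists, not_and]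
    constructor
    · intro h x hx hxy; exact hx (h x hxy)
    · intro h x hxy; by_contra hx; exact h x hx hxy
  rw [this]
  exact (hf _ hO.isClosed_compl).isOpen_compl

/-- The key induction: finite subsets of fibres of bounded size. -/
theorem exists_good_card {X : Type u} {Y : Type v} [TopologicalSpace X] [TopologicalSpace Y]
    (hX : Metalindelof X) {f : X → Y} (hf : PerfectMapping f) (n : ℕ) :
    ∀ (I : Type v) (U : I → Set Y), (∀ i, IsOpen (U i)) → (∀ y, ∃ i, y ∈ U i) →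
      ∃ s : X → Set I, Good s ∧ ∀ y, ∀ E : Finset X, (∀ x ∈ E, f x = y) → E.card ≤ n →
        ∃ i, y ∈ U i ∧ ∀ x ∈ E, i ∈ s x := by
  classical
  induction n with
  | zero =>
    intro I U hU hcov
    refine ⟨fun _ => ∅, good_empty, fun y E hE hcard => ?_⟩
    obtain ⟨i, hi⟩ := hcov y
    have : E = ∅ := by simpa using hcard
    subst this
    exact ⟨i, hi, by simp⟩
  | succ n ih =>
    intro I U hU hcov
    obtain ⟨⟨hfc, hfs, hfcl⟩, hfk⟩ := hf
    obtain ⟨s₀, hs₀, hs₀c, hs₀U⟩ := exists_good_of_cover hX (fun i => f ⁻¹' U i)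
      (fun i => (hU i).preimage hfc) (fun x => hcov (f x))
    -- finite subcovers of the fibres
    have hc : ∀ y, ∃ c : Finset I, (∀ i ∈ c, y ∈ U i) ∧ ∀ x, f x = y → ∃ i ∈ c, i ∈ s₀ x := by
      intro y
      obtain ⟨c, hc⟩ := (hfk y).elim_finite_subcover (fun i => {x | i ∈ s₀ x}) (fun i => hs₀.2 i)
        (fun x _ => Set.mem_iUnion.2 (hs₀c x))
      refine ⟨c.filter (fun i => y ∈ U i), fun i hi => (Finset.mem_filter.1 hi).2, fun x hx => ?_⟩
      have := hc (show x ∈ f ⁻¹' {y} from hx)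
      simp only [Set.mem_iUnion, Set.mem_ofPred_eq, exists_prop] at this
      obtain ⟨i, hi, hix⟩ := this
      refine ⟨i, Finset.mem_filter.2 ⟨hi, ?_⟩, hix⟩
      have := hs₀U i x hix
      rw [← hx]
      exact this
    choose c hcU hcx using hc
    let N : Y → Set Y := fun y =>
      {y' | ∀ x, f x = y' → x ∈ ⋃ i ∈ c y, {x | i ∈ s₀ x}} ∩ ⋂ i ∈ c y, U i
    have hN : ∀ y, IsOpen (N y) := by
      intro y
      refine (isOpen_sat hfcl ?_).inter (isOpen_biInter_finset fun i _ => hU i)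
      exact isOpen_biUnion fun i _ => hs₀.2 i
    have hNy : ∀ y, y ∈ N y := by
      intro y
      refine ⟨fun x hx => ?_, ?_⟩
      · obtain ⟨i, hi, hix⟩ := hcx y x hx
        simp only [Set.mem_iUnion]
        exact ⟨i, hi, hix⟩
      · simp only [Set.mem_iInter]
        exact fun i hi => hcU y i hi
    obtain ⟨s', hs', hs'E⟩ := ih Y N hN (fun y => ⟨y, hNy y⟩)
    refine ⟨fun x => s₀ x ∪ ⋃ y ∈ s' x, (c y : Set I),
      good_union hs₀ (good_comp hs' _ fun y => (c y).countable_toSet), ?_⟩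
    intro y E hE hcard
    rcases E.eq_empty_or_nonempty with rfl | ⟨x₀, hx₀⟩
    · obtain ⟨i, hi⟩ := hcov y
      exact ⟨i, hi, by simp⟩
    · obtain ⟨y', hy', hy'E⟩ := hs'E y (E.erase x₀) (fun x hx => hE x (Finset.mem_of_mem_erase hx))
        (by rw [Finset.card_erase_of_mem hx₀]; omega)
      have h1 := hy'.1 x₀ (hE x₀ hx₀)
      simp only [Set.mem_iUnion, Set.mem_ofPred_eq, exists_prop] at h1
      obtain ⟨i, hi, hix⟩ := h1
      have h2 := hy'.2
      simp only [Set.mem_iInter] at h2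
      refine ⟨i, h2 i hi, fun x hx => ?_⟩
      by_cases hxx : x = x₀
      · subst hxx
        exact Or.inl hix
      · refine Or.inr ?_
        simp only [Set.mem_iUnion]
        exact ⟨y', hy'E x (Finset.mem_erase.2 ⟨hxx, hx⟩), hi⟩

/-- All finite subsets of fibres at once. -/
theorem exists_good_finite {X : Type u} {Y : Type v} [TopologicalSpace X] [TopologicalSpace Y]
    (hX : Metalindelof X) {f : X → Y} (hf : PerfectMapping f)
    (I : Type v) (U : I → Set Y) (hU : ∀ i, IsOpen (U i)) (hcov : ∀ y, ∃ i, y ∈ U i) :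
      ∃ s : X → Set I, Good s ∧ ∀ y, ∀ E : Finset X, (∀ x ∈ E, f x = y) →
        ∃ i, y ∈ U i ∧ ∀ x ∈ E, i ∈ s x := by
  choose s hs hsE using fun n => exists_good_card hX hf n I U hU hcov
  refine ⟨fun x => ⋃ n, s n x, good_iUnion hs, fun y E hE => ?_⟩
  obtain ⟨i, hi, hiE⟩ := hsE E.card y E hE le_rfl
  exact ⟨i, hi, fun x hx => Set.mem_iUnion.2 ⟨E.card, hiE x hx⟩⟩

/-- The positive direction, for one cover indexed by `I`. -/
theorem exists_refinement {X : Type u} {Y : Type v} [TopologicalSpace X] [TopologicalSpace Y]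
    (hX : Metalindelof X) {f : X → Y} (hf : PerfectMapping f)
    (I : Type v) (F : Finset I → Set I) (hF : ∀ A, (F A).Countable)
    (hfree : ¬ ∃ γ : ℕ → I, IsInfiniteFree F γ)
    (U : I → Set Y) (hU : ∀ i, IsOpen (U i)) (hcov : ∀ y, ∃ i, y ∈ U i) :
    ∃ W : I → Set Y, (∀ i, IsOpen (W i)) ∧ (∀ y, ∃ i, y ∈ W i) ∧ (∀ i, W i ⊆ U i) ∧
      ∀ y, {i | y ∈ W i}.Countable := by
  classical
  obtain ⟨s, hs, hsE⟩ := exists_good_finite hX hf I U hU hcov
  obtain ⟨t, ht, hst, htF⟩ := exists_closed hs F hF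
  obtain ⟨⟨hfc, hfs, hfcl⟩, hfk⟩ := hf
  refine ⟨fun i => U i ∩ {y | ∀ x, f x = y → x ∈ {x | i ∈ t x}},
    fun i => (hU i).inter (isOpen_sat hfcl (ht.2 i)), fun y => ?_,
    fun i => Set.inter_subset_left, fun y => ?_⟩
  · by_contra hcon
    push Not at hcon
    -- the closed sets on the fibre
    have hcomp : CompactSpace (f ⁻¹' {y}) := isCompact_iff_compactSpace.1 (hfk y)
    let C : {i // y ∈ U i} → Set (f ⁻¹' {y}) := fun i => {x | i.1 ∉ t x.1}
    have hC : ∀ i, IsClosed (C i) := by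
      intro i
      have : C i = (Subtype.val ⁻¹' {x | i.1 ∈ t x})ᶜ := rfl
      rw [this]
      exact ((ht.2 i.1).preimage continuous_subtype_val).isClosed_compl
    have hne : ∀ i, (C i).Nonempty := by
      intro i
      by_contra h
      rw [Set.not_nonempty_iff_eq_empty] at h
      refine hcon i.1 ⟨i.2, fun x hx => ?_⟩
      by_contra hx2
      have : (⟨x, hx⟩ : f ⁻¹' {y}) ∈ C i := hx2
      rw [h] at this
      exact this
    have hfin : ∀ E : Set (f ⁻¹' {y}), E.Finite → ∃ i, ∀ x ∈ E, x ∉ C i := by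
      intro E hE
      obtain ⟨i, hi, hiE⟩ := hsE y (hE.toFinset.image Subtype.val) (by
        intro x hx
        simp only [Finset.mem_image, Set.Finite.mem_toFinset] at hx
        obtain ⟨z, _, rfl⟩ := hx
        exact z.2)
      refine ⟨⟨i, hi⟩, fun x hx hxC => hxC (hst _ (hiE x.1 ?_))⟩
      exact Finset.mem_image.2 ⟨x, hE.mem_toFinset.2 hx, rfl⟩
    obtain ⟨i, x, hix⟩ := exists_bijective_hits C hC hne hfin
    refine hfree ⟨fun n => (i n).1, ?_, ?_⟩
    · intro n m hnm
      have h1 : i n = i m := Subtype.ext hnm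
      exact (hix n m).1 (h1 ▸ (hix n n).2 rfl)
    · intro n A hA hmem
      have h1 : (A : Set I) ⊆ t (x n).1 := by
        intro a ha
        obtain ⟨m, hmn, rfl⟩ := hA a ha
        by_contra h
        exact hmn ((hix n m).1 h).symm
      exact (hix n n).2 rfl (htF _ A h1 hmem)
  · obtain ⟨x, hx⟩ := hfs y
    refine (ht.1 x).mono ?_
    rintro i ⟨-, hi⟩
    exact hi x hx

/-- The positive direction. -/
theorem metalindelof_image {X : Type u} {Y : Type v} [TopologicalSpace X] [TopologicalSpace Y]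
    (hX : Metalindelof X) {f : X → Y} (hf : PerfectMapping f)
    (hfree : ∀ I : Type v, ¬ FreeSetProperty I) : Metalindelof Y := by
  classical
  rintro U ⟨hU, hcov⟩
  have h := hfree U
  unfold FreeSetProperty at h
  push Not at h
  obtain ⟨F, hF, hno⟩ := h
  obtain ⟨W, hWo, hWc, hWU, hWp⟩ := exists_refinement hX hf U F hF
    (by push Not; exact hno) (fun i => i.1) (fun i => hU i.1 i.2)
    (fun y => by
      have hy : y ∈ ⋃₀ U := hcov ▸ Set.mem_univ y
      obtain ⟨u, hu, hyu⟩ := hy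
      exact ⟨⟨u, hu⟩, hyu⟩)
  refine ⟨Set.range W, ⟨?_, ?_⟩, ?_, fun y => ?_⟩
  · rintro _ ⟨i, rfl⟩; exact hWo i
  · rw [Set.sUnion_range, Set.eq_univ_iff_forall]
    exact fun y => Set.mem_iUnion.2 (hWc y)
  · rintro _ ⟨i, rfl⟩; exact ⟨i.1, i.2, hWU i⟩
  · refine ((hWp y).image W).mono ?_
    rintro _ ⟨⟨i, rfl⟩, hi⟩
    exact ⟨i, hi, rfl⟩

end Pool.Agent.MP_e848aa_gt.FreeSet
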