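import Pool.Agent.MP_e848aa_gt.Basic
import Pool.Agent.MP_e848aa_gt.FreeSet.DCC
import Pool.Agent.MP_e848aa_gt.FreeSet.Pos

/-!
Closed mappings whose fibres have Lindelof boundary: covers indexed by a set with the
descending chain condition have point-countable open refinements.
-/

namespace Pool.Agent.MP_e848aa_gt.FreeSet

open Set Cardinal

universe u v

/-- Using the metalindelof property of `X` relative to a closed set. -/
theorem exists_good_on {X : Type u} {I : Type v} [TopologicalSpace X] (hX : Metalindelof X)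
    (G : I → Set X) (hG : ∀ i, IsOpen (G i)) (K : Set X) (hK : IsClosed K)
    (hcov : ∀ x ∈ K, ∃ i, x ∈ G i) :
    ∃ s : X → Set I, Good s ∧ (∀ x ∈ K, ∃ i, i ∈ s x) ∧ ∀ i x, i ∈ s x → x ∈ G i := by
  obtain ⟨V, h1, h2, h3, h4⟩ := hX.shrinkOn G hG K hK hcov
  exact ⟨fun x => {i | x ∈ V i}, ⟨h4, h1⟩, h3, fun i x hx => h2 i hx⟩

/-- The key induction for fibres with Lindelof boundary over a closed set `H`. -/
theorem exists_good_card_lindelof {X : Type u} {Y : Type v} [TopologicalSpace X]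
    [TopologicalSpace Y] (hX : Metalindelof X) {f : X → Y} (hf : ClosedMapping f)
    (H : Set Y) (hH : IsClosed H)
    (hL : ∀ y ∈ H, IsLindelof (f ⁻¹' {y} \ interior (f ⁻¹' {y}))) (n : ℕ) :
    ∀ (I : Type v) (U : I → Set Y), (∀ i, IsOpen (U i)) → (∀ y ∈ H, ∃ i, y ∈ U i) →
      ∃ s : X → Set I, Good s ∧ ∀ y ∈ H, ∀ E : Finset X, (∀ x ∈ E, f x = y) → E.card ≤ n →
        ∃ i, y ∈ U i ∧ ∀ x ∈ E, i ∈ s x := by
  classical
  induction n with
  | zero =>
    intro I U hU hcov
    refine ⟨fun _ => ∅, good_empty, fun y hy E hE hcard => ?_⟩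
    obtain ⟨i, hi⟩ := hcov y hy
    have : E = ∅ := by simpa using hcard
    subst this
    exact ⟨i, hi, by simp⟩
  | succ n ih =>
    intro I U hU hcov
    have hfcl := hf.isClosedMap
    obtain ⟨s₀, hs₀, hs₀c, hs₀U⟩ := exists_good_on hX (fun i => f ⁻¹' U i)
      (fun i => (hU i).preimage hf.continuous) (f ⁻¹' H) (hH.preimage hf.continuous)
      (fun x hx => hcov (f x) hx)
    have hcov' : ∀ y : H, ∃ i, y.1 ∈ U i := fun y => hcov y.1 y.2
    choose i₀ hi₀ using hcov'
    -- countable subcovers of the boundaries of the fibres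
    have hc : ∀ y : H, ∃ c : Set I, c.Countable ∧ i₀ y ∈ c ∧
        ∀ x, f x = y.1 → x ∉ interior (f ⁻¹' {y.1}) → ∃ i ∈ c, i ∈ s₀ x := by
      intro y
      obtain ⟨c, hc1, hc2⟩ := (hL y.1 y.2).elim_countable_subcover (fun i => {x | i ∈ s₀ x})
        (fun i => hs₀.2 i)
        (fun x hx => Set.mem_iUnion.2 (hs₀c x (by
          have h1 : f x = y.1 := hx.1
          change f x ∈ H
          rw [h1]
          exact y.2)))
      refine ⟨insert (i₀ y) c, hc1.insert _, Set.mem_insert _ _, fun x hx hxi => ?_⟩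
      have := hc2 (show x ∈ f ⁻¹' {y.1} \ interior (f ⁻¹' {y.1}) from ⟨hx, hxi⟩)
      simp only [Set.mem_iUnion, Set.mem_ofPred_eq, exists_prop] at this
      obtain ⟨i, hi, hix⟩ := this
      exact ⟨i, Set.mem_insert_of_mem _ hi, hix⟩
    choose c hcc hci hcx using hc
    let N : H → Set Y := fun y =>
      {y' | ∀ x, f x = y' → x ∈ (⋃ i ∈ c y, {x | i ∈ s₀ x}) ∪ interior (f ⁻¹' {y.1})}
    have hN : ∀ y, IsOpen (N y) := by
      intro y
      refine isOpen_sat hfcl (IsOpen.union ?_ isOpen_interior)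
      exact isOpen_biUnion fun i _ => hs₀.2 i
    have hNy : ∀ y : H, y.1 ∈ N y := by
      intro y x hx
      by_cases hxi : x ∈ interior (f ⁻¹' {y.1})
      · exact Or.inr hxi
      · obtain ⟨i, hi, hix⟩ := hcx y x hx hxi
        left
        simp only [Set.mem_iUnion]
        exact ⟨i, hi, hix⟩
    obtain ⟨s', hs', hs'E⟩ := ih H N hN (fun y hy => ⟨⟨y, hy⟩, hNy ⟨y, hy⟩⟩)
    -- interior points of fibres
    let s₁ : X → Set I := fun x => {i | ∃ y : H, x ∈ interior (f ⁻¹' {y.1}) ∧ i₀ y = i}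
    have hs₁ : Good s₁ := by
      refine ⟨fun x => ?_, fun i => ?_⟩
      · refine Set.Subsingleton.countable ?_
        rintro _ ⟨y, hy, rfl⟩ _ ⟨z, hz, rfl⟩
        have h1 : x ∈ f ⁻¹' {y.1} := interior_subset hy
        have h2 : x ∈ f ⁻¹' {z.1} := interior_subset hz
        have h1 : f x = y.1 := h1
        have h2 : f x = z.1 := h2
        have : y = z := Subtype.ext (h1.symm.trans h2)
        rw [this]
      · have : {x | i ∈ s₁ x} = ⋃ y ∈ {y : H | i₀ y = i}, interior (f ⁻¹' {y.1}) := by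
          ext x
          simp only [s₁, Set.mem_ofPred_eq, Set.mem_iUnion, exists_prop]
          constructor
          · rintro ⟨y, h1, h2⟩; exact ⟨y, h2, h1⟩
          · rintro ⟨y, h1, h2⟩; exact ⟨y, h2, h1⟩
        rw [this]
        exact isOpen_biUnion fun y _ => isOpen_interior
    refine ⟨fun x => (s₀ x ∪ s₁ x) ∪ ⋃ y ∈ s' x, c y,
      good_union (good_union hs₀ hs₁) (good_comp hs' _ hcc), ?_⟩
    intro y hy E hE hcard
    rcases E.eq_empty_or_nonempty with rfl | ⟨x₀, hx₀⟩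
    · obtain ⟨i, hi⟩ := hcov y hy
      exact ⟨i, hi, by simp⟩
    · obtain ⟨y', hy', hy'E⟩ := hs'E y hy (E.erase x₀)
        (fun x hx => hE x (Finset.mem_of_mem_erase hx))
        (by rw [Finset.card_erase_of_mem hx₀]; omega)
      have hcomm : ∀ i ∈ c y', ∀ x ∈ E.erase x₀,
          i ∈ (s₀ x ∪ s₁ x) ∪ ⋃ y ∈ s' x, c y := by
        intro i hi x hx
        refine Or.inr ?_
        simp only [Set.mem_iUnion]
        exact ⟨y', hy'E x hx, hi⟩
      rcases hy' x₀ (hE x₀ hx₀) with h1 | h1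
      · simp only [Set.mem_iUnion, Set.mem_ofPred_eq, exists_prop] at h1
        obtain ⟨i, hi, hix⟩ := h1
        refine ⟨i, ?_, fun x hx => ?_⟩
        · have h3 := hs₀U i x₀ hix
          rw [← hE x₀ hx₀]
          exact h3
        · by_cases hxx : x = x₀
          · subst hxx
            exact Or.inl (Or.inl hix)
          · exact hcomm i hi x (Finset.mem_erase.2 ⟨hxx, hx⟩)
      · have h2 : x₀ ∈ f ⁻¹' {y'.1} := interior_subset h1
        have h2 : f x₀ = y'.1 := h2
        have hyy' : y = y'.1 := (hE x₀ hx₀).symm.trans h2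
        refine ⟨i₀ y', hyy' ▸ hi₀ y', fun x hx => ?_⟩
        by_cases hxx : x = x₀
        · subst hxx
          exact Or.inl (Or.inr ⟨y', h1, rfl⟩)
        · exact hcomm _ (hci y') x (Finset.mem_erase.2 ⟨hxx, hx⟩)

theorem exists_good_finite_lindelof {X : Type u} {Y : Type v} [TopologicalSpace X]
    [TopologicalSpace Y] (hX : Metalindelof X) {f : X → Y} (hf : ClosedMapping f)
    (H : Set Y) (hH : IsClosed H)
    (hL : ∀ y ∈ H, IsLindelof (f ⁻¹' {y} \ interior (f ⁻¹' {y})))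
    (I : Type v) (U : I → Set Y) (hU : ∀ i, IsOpen (U i)) (hcov : ∀ y ∈ H, ∃ i, y ∈ U i) :
      ∃ s : X → Set I, Good s ∧ ∀ y ∈ H, ∀ E : Finset X, (∀ x ∈ E, f x = y) →
        ∃ i, y ∈ U i ∧ ∀ x ∈ E, i ∈ s x := by
  choose s hs hsE using fun n => exists_good_card_lindelof hX hf H hH hL n I U hU hcov
  refine ⟨fun x => ⋃ n, s n x, good_iUnion hs, fun y hy E hE => ?_⟩
  obtain ⟨i, hi, hiE⟩ := hsE E.card y hy E hE le_rfl
  exact ⟨i, hi, fun x hx => Set.mem_iUnion.2 ⟨E.card, hiE x hx⟩⟩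

/-- Covers indexed by a set with the descending chain condition. -/
theorem coverable_of_dcc {X : Type u} {Y : Type v} [TopologicalSpace X] [TopologicalSpace Y]
    (hX : Metalindelof X) {f : X → Y} (hf : ClosedMapping f) (H : Set Y) (hH : IsClosed H)
    (hL : ∀ y ∈ H, IsLindelof (f ⁻¹' {y} \ interior (f ⁻¹' {y})))
    (𝒰 : Set (Set Y)) (ho : ∀ U ∈ 𝒰, IsOpen U) (hc : H ⊆ ⋃₀ 𝒰) (hdcc : HasDCC 𝒰) :
    Coverable 𝒰 H := by
  classical
  obtain ⟨F, hF, hdcc⟩ := hdcc
  have hcov : ∀ y ∈ H, ∃ i : 𝒰, y ∈ i.1 := by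
    intro y hy
    obtain ⟨U, hU, hyU⟩ := hc hy
    exact ⟨⟨U, hU⟩, hyU⟩
  obtain ⟨s, hs, hsE⟩ := exists_good_finite_lindelof hX hf H hH hL 𝒰 (fun i => i.1)
    (fun i => ho i.1 i.2) hcov
  obtain ⟨t, ht, hst, htF⟩ := exists_closed hs F hF
  refine coverable_of_indexed (ι := 𝒰) (fun i => i.1 ∩ {y | ∀ x, f x = y → x ∈ {x | i ∈ t x}})
    (fun i => (ho i.1 i.2).inter (isOpen_sat hf.isClosedMap (ht.2 i)))
    (fun i => ⟨i.1, i.2, Set.inter_subset_left⟩) (fun y hy => ?_) (fun y => ?_)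
  · by_contra hcon
    push Not at hcon
    -- enlarge finite subsets of the fibre
    have hstep : ∀ E : {E : Finset X // ∀ x ∈ E, f x = y}, ∃ x, f x = y ∧
        ∃ i, (∀ z ∈ E.1, i ∈ t z) ∧ i ∉ t x := by
      intro E
      obtain ⟨i, hi, hiE⟩ := hsE y hy E.1 E.2
      have h1 := hcon i
      have h2 : ∃ x, f x = y ∧ i ∉ t x := by
        by_contra h
        push Not at h
        exact h1 ⟨hi, h⟩
      obtain ⟨x, hx, hix⟩ := h2
      exact ⟨x, hx, i, fun z hz => hst z (hiE z hz), hix⟩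
    choose g hg1 hg2 using hstep
    let nxt : {E : Finset X // ∀ x ∈ E, f x = y} → {E : Finset X // ∀ x ∈ E, f x = y} :=
      fun E => ⟨insert (g E) E.1, by
        intro x hx
        rcases Finset.mem_insert.1 hx with rfl | h
        · exact hg1 E
        · exact E.2 x h⟩
    let q : ℕ → {E : Finset X // ∀ x ∈ E, f x = y} := fun n => nxt^[n] ⟨∅, by simp⟩
    have hq : ∀ n, q (n + 1) = nxt (q n) := fun n => Function.iterate_succ_apply' _ _ _
    let M : ℕ → Set 𝒰 := fun n => ⋂ x ∈ (q n).1, t x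
    have hM : ∀ n, FClosed F (M n) := by
      intro n A hA i hi
      simp only [M, Set.mem_iInter]
      intro x hx
      refine htF x A ?_ hi
      intro a ha
      have := hA ha
      simp only [M, Set.mem_iInter] at this
      exact this x hx
    have hanti : Antitone M := by
      refine antitone_nat_of_succ_le fun n => ?_
      intro i hi
      simp only [M, Set.mem_iInter] at hi ⊢
      intro x hx
      refine hi x ?_
      rw [hq]
      exact Finset.mem_insert_of_mem hx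
    obtain ⟨n, hn⟩ := hdcc M hM hanti
    obtain ⟨i, hi1, hi2⟩ := hg2 (q n)
    have h1 : i ∈ M n := by
      simp only [M, Set.mem_iInter]
      exact hi1
    rw [← hn (n + 1) (Nat.le_succ n)] at h1
    simp only [M, Set.mem_iInter] at h1
    refine hi2 (h1 (g (q n)) ?_)
    rw [hq]
    exact Finset.mem_insert_self _ _
  · obtain ⟨x, hx⟩ := hf.surjective y
    refine (ht.1 x).mono ?_
    rintro i ⟨-, hi⟩
    exact hi x hx

end Pool.Agent.MP_e848aa_gt.FreeSet
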