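import Pool.Agent.MP_e848aa_gt.Main
import Pool.Agent.MP_e848aa_gt.FreeSet.LindelofFibres

/-!
Closed mappings such that every point of the range is a P-point, or has a fibre with
Lindelof boundary, or lies in a union of at most aleph one members of the cover.
-/

namespace Pool.Agent.MP_e848aa_gt.FreeSet

open Set Cardinal

universe u v

/-- Adding at most aleph one members of the cover. -/
theorem coverable_univ_of_compl {X : Type u} {Y : Type v} [TopologicalSpace X]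
    [TopologicalSpace Y] (hX : Metalindelof X) {f : X → Y} (hf : ClosedMapping f)
    (𝒰 : Set (Set Y)) (h𝒰 : OpenCover 𝒰) (𝒰' : Set (Set Y)) (hsub : 𝒰' ⊆ 𝒰)
    (hcard : #𝒰' ≤ ℵ₁) (h : Coverable 𝒰 (⋃₀ 𝒰')ᶜ) : Coverable 𝒰 Set.univ := by
  classical
  obtain ⟨𝒱, v1, v2, v3, v4⟩ := h
  have hcard' : #(Option 𝒰') ≤ ℵ₁ := by
    rw [Cardinal.mk_option]
    exact Cardinal.add_le_of_le (Cardinal.aleph0_le_aleph 1) hcard
      (le_trans Cardinal.one_le_aleph0 (Cardinal.aleph0_le_aleph 1))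
  have h := coverable_of_alephOne hX hf hcard'
    (fun o : Option 𝒰' => o.elim 𝒱 (fun U => {U.1})) (by
      intro o V hV
      cases o with
      | none => exact v1 V hV
      | some U =>
        have : V = U.1 := hV
        rw [this]
        exact h𝒰.1 _ (hsub U.2)) (by
      intro o
      cases o with
      | none => exact v3
      | some U =>
        intro y
        refine (countable_singleton U.1).mono ?_
        rintro V ⟨hV, _⟩
        exact hV) (by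
      intro y
      by_cases hy : y ∈ ⋃₀ 𝒰'
      · obtain ⟨U, hU, hyU⟩ := hy
        exact ⟨some ⟨U, hU⟩, U, rfl, hyU⟩
      · obtain ⟨V, hV, hyV⟩ := v4 hy
        exact ⟨none, V, hV, hyV⟩)
  refine h.mono_refines ?_
  intro V hV
  obtain ⟨o, ho⟩ := mem_iUnion.mp hV
  cases o with
  | none => exact v2 V ho
  | some U =>
    have : V = U.1 := ho
    exact ⟨U.1, hsub U.2, by rw [this]⟩

/-- The combined statement. -/
theorem hasPCR_mixed {X : Type u} {Y : Type v} [TopologicalSpace X] [TopologicalSpace Y]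
    (hX : Metalindelof X) (f : X → Y) (hf : ClosedMapping f)
    (𝒰 : Set (Set Y)) (h𝒰 : OpenCover 𝒰) (hcard : #𝒰 < ℵ_ Ordinal.omega0)
    (𝒰' : Set (Set Y)) (hsub : 𝒰' ⊆ 𝒰) (hcard' : #𝒰' ≤ ℵ₁)
    (hE : ∀ y, IsPPoint y ∨ IsLindelof (f ⁻¹' {y} \ interior (f ⁻¹' {y})) ∨ y ∈ ⋃₀ 𝒰') :
    HasPointCountableOpenRefinement 𝒰 := by
  classical
  refine hasPCR_of_coverable (coverable_univ_of_compl hX hf 𝒰 h𝒰 𝒰' hsub hcard' ?_)
  have hH : IsClosed (⋃₀ 𝒰')ᶜ :=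
    (isOpen_sUnion fun U hU => h𝒰.1 U (hsub hU)).isClosed_compl
  have hc : (⋃₀ 𝒰')ᶜ ⊆ ⋃₀ 𝒰 := by rw [h𝒰.2]; exact subset_univ _
  obtain ⟨𝒱, v1, v2, v3, v4⟩ := coverable_of_coverStat 𝒰 h𝒰.1 (⋃₀ 𝒰')ᶜ hH hc
    (coverStat_of_lt_aleph_omega hX hf _ (by rw [Cardinal.card_ord]; exact hcard))
  have hH' : IsClosed ((⋃₀ 𝒰')ᶜ ∩ (⋃₀ 𝒱)ᶜ) := hH.inter (isOpen_sUnion v1).isClosed_compl
  have h1 : Coverable 𝒰 ((⋃₀ 𝒰')ᶜ ∩ (⋃₀ 𝒱)ᶜ) := by
    refine coverable_of_dcc hX hf _ hH' ?_ 𝒰 h𝒰.1 (fun y hy => hc hy.1)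
      (hasDCC_of_lt_aleph_omega _ hcard)
    rintro y ⟨hy, hyV⟩
    rcases hE y with h | h | h
    · exact absurd (v4 ⟨hy, h⟩) hyV
    · exact h
    · exact absurd h hy
  have h2 : Coverable 𝒰 (⋃₀ 𝒱) := ⟨𝒱, v1, v2, v3, subset_rfl⟩
  refine (coverable_iUnion
    (fun b : Bool => bif b then ⋃₀ 𝒱 else (⋃₀ 𝒰')ᶜ ∩ (⋃₀ 𝒱)ᶜ) ?_).mono_set ?_
  · intro b
    cases b
    · exact h1
    · exact h2
  · intro y hy
    by_cases h : y ∈ ⋃₀ 𝒱
    · exact mem_iUnion.mpr ⟨true, h⟩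
    · exact mem_iUnion.mpr ⟨false, hy, h⟩

end Pool.Agent.MP_e848aa_gt.FreeSet
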